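import Mathlib
import Pool.Agent.Helper26.EC.Final

set_option autoImplicit false

/-!
Rational curves of unbounded canonical degree on blow-ups of the projective plane.

A curve of geometric genus 0 in the plane is the image of a generically injective morphism
`φ = [φ₀ : φ₁ : φ₂]` from the projective line, given by three coprime polynomials (coprime binary forms
of degree `d`, the point `∞` included). On the blow-up `X` of the plane at a finite set `S` its strict
transform `C` satisfies `K_X · C = deg φ^* K_X = -3 d + ∑_{p ∈ S} ∑_τ ord_τ (φ^* m_p)`, where `τ` runs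
over the points of the projective line and `m_p` is the ideal of `p`, because the pull-back of the
exceptional curve over `p` to the normalisation of `C` is the divisor defined by the ideal `φ^* m_p`.
-/

open Polynomial

namespace Pool.Agent.Results.MP_79ab39_ag.PlaneBlowup

open scoped LinearAlgebra.Projectivization

/-- A rational curve in the complex projective plane, given by its normalisation
`t ↦ [φ₀(t) : φ₁(t) : φ₂(t)]`: the `φᵢ` have no common zero, `deg` is the largest of their degrees and
is positive, and the map is injective outside a finite set. -/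
structure RationalPlaneCurve where
  /-- the coordinates -/
  φ : Fin 3 → ℂ[X]
  /-- the degree -/
  deg : ℕ
  coprime : Ideal.span (Set.range φ) = ⊤
  deg_pos : 0 < deg
  deg_le : ∀ i, (φ i).natDegree ≤ deg
  deg_eq : ∃ i, (φ i).natDegree = deg
  birational : ∃ T : Finset ℂ, ∀ t, t ∉ T → ∀ t', t' ∉ T →
    (∀ i j, (φ i).eval t * (φ j).eval t' = (φ j).eval t * (φ i).eval t') → t = t'

/-- The pull-back of the linear form with coefficients `a`. -/
noncomputable def RationalPlaneCurve.pull (C : RationalPlaneCurve) (a : Fin 3 → ℂ) : ℂ[X] :=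
  ∑ i, Polynomial.C (a i) * C.φ i

/-- The pull-back of the linear form with coefficients `a`, a section of `O(deg)` on the projective
line, vanishes to order at least `m` at the point `τ` of the projective line. -/
def RationalPlaneCurve.Vanishes (C : RationalPlaneCurve) (a : Fin 3 → ℂ) (m : ℕ) :
    OnePoint ℂ → Prop
  | none => C.pull a = 0 ∨ (C.pull a).natDegree + m ≤ C.deg
  | some t => (Polynomial.X - Polynomial.C t) ^ m ∣ C.pull a

/-- The order at the point `τ` of the projective line of the pull-back of the ideal of the point `p` of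
the plane: the largest `m` such that every linear form vanishing at `p` vanishes to order at least `m`
at `τ`. It is the contribution of `τ` to the intersection number of the strict transform with the
exceptional curve over `p`. -/
noncomputable def RationalPlaneCurve.contact (C : RationalPlaneCurve) (p : ℙ ℂ (Fin 3 → ℂ))
    (τ : OnePoint ℂ) : ℕ :=
  sSup {m | ∀ a : Fin 3 → ℂ, ∑ i, a i * p.rep i = 0 → C.Vanishes a m τ}

/-- The canonical degree of the strict transform of `C` on the blow-up of the plane at `S`. -/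
noncomputable def RationalPlaneCurve.canonicalDegree (C : RationalPlaneCurve)
    (S : Finset (ℙ ℂ (Fin 3 → ℂ))) : ℤ :=
  ∑ p ∈ S, ((∑ᶠ τ : OnePoint ℂ, C.contact p τ : ℕ) : ℤ) - 3 * (C.deg : ℤ)

section Contact

variable (C : RationalPlaneCurve)

/-- some linear form vanishing at `p` does not vanish on the curve -/
lemma exists_pull_ne (v : Fin 3 → ℂ) (hv : v ≠ 0) :
    ∃ a : Fin 3 → ℂ, ∑ i, a i * v i = 0 ∧ C.pull a ≠ 0 := by
  classical
  by_contra hcon
  push Not at hcon
  obtain ⟨k, hk⟩ : ∃ k, v k ≠ 0 := by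
    by_contra h
    push Not at h
    exact hv (funext h)
  -- `v k * φ j = v j * φ k`
  have key : ∀ j, Polynomial.C (v k) * C.φ j = Polynomial.C (v j) * C.φ k := by
    intro j
    have h1 := hcon (fun i => (if i = j then v k else 0) - (if i = k then v j else 0)) (by
      simp only [sub_mul, ite_mul, zero_mul, Finset.sum_sub_distrib, Finset.sum_ite_eq',
        Finset.mem_univ, if_true]
      ring)
    unfold RationalPlaneCurve.pull at h1
    have h2 : ∀ i, Polynomial.C ((if i = j then v k else 0) - (if i = k then v j else 0)) * C.φ i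
        = (if i = j then Polynomial.C (v k) * C.φ i else 0)
          - (if i = k then Polynomial.C (v j) * C.φ i else 0) := by
      intro i
      split_ifs <;> simp [sub_mul]
    simp_rw [h2] at h1
    rw [Finset.sum_sub_distrib, Finset.sum_ite_eq', Finset.sum_ite_eq'] at h1
    simp only [Finset.mem_univ, if_true] at h1
    exact sub_eq_zero.1 h1
  have hunit : IsUnit (C.φ k) := by
    have h1 : Ideal.span (Set.range C.φ) ≤ Ideal.span {C.φ k} := by
      rw [Ideal.span_le]
      rintro _ ⟨j, rfl⟩
      rw [SetLike.mem_coe, Ideal.mem_span_singleton]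
      refine ⟨Polynomial.C (v j / v k), ?_⟩
      have h2 : Polynomial.C (v k)⁻¹ * (Polynomial.C (v k) * C.φ j) = C.φ j := by
        rw [← mul_assoc, ← Polynomial.C_mul, inv_mul_cancel₀ hk, Polynomial.C_1, one_mul]
      rw [← h2, key j, ← mul_assoc, ← Polynomial.C_mul, mul_comm]
      congr 2
      field_simp
    rw [C.coprime, top_le_iff, Ideal.span_singleton_eq_top] at h1
    exact h1
  have hdeg : (C.φ k).natDegree = 0 := Polynomial.natDegree_eq_zero_of_isUnit hunit
  obtain ⟨j, hj⟩ := C.deg_eq
  have h3 : (C.φ j).natDegree = 0 := by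
    have h4 : (Polynomial.C (v k) * C.φ j).natDegree = (C.φ j).natDegree :=
      Polynomial.natDegree_C_mul hk
    have h5 : (Polynomial.C (v j) * C.φ k).natDegree ≤ (C.φ k).natDegree :=
      Polynomial.natDegree_C_mul_le _ _
    rw [key j] at h4
    omega
  have := C.deg_pos
  omega

lemma pull_natDegree_le (a : Fin 3 → ℂ) : (C.pull a).natDegree ≤ C.deg := by
  unfold RationalPlaneCurve.pull
  apply Polynomial.natDegree_sum_le_of_forall_le
  intro i _
  exact (Polynomial.natDegree_C_mul_le _ _).trans (C.deg_le i)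

lemma contact_bdd (p : ℙ ℂ (Fin 3 → ℂ)) (τ : OnePoint ℂ) :
    BddAbove {m | ∀ a : Fin 3 → ℂ, ∑ i, a i * p.rep i = 0 → C.Vanishes a m τ} := by
  obtain ⟨a, ha, ha0⟩ := exists_pull_ne C p.rep p.rep_nonzero
  refine ⟨C.deg, ?_⟩
  intro m hm
  have h1 := hm a ha
  cases τ with
  | infty =>
    rcases h1 with h1 | h1
    · exact absurd h1 ha0
    · omega
  | coe t =>
    have h2 : (Polynomial.X - Polynomial.C t) ^ m ∣ C.pull a := h1
    have h3 := Polynomial.natDegree_le_of_dvd h2 ha0
    rw [Polynomial.natDegree_pow, Polynomial.natDegree_X_sub_C, mul_one] at h3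
    exact h3.trans (pull_natDegree_le C a)

lemma contact_finite (p : ℙ ℂ (Fin 3 → ℂ)) :
    (Function.support fun τ : OnePoint ℂ => C.contact p τ).Finite := by
  classical
  obtain ⟨a, ha, ha0⟩ := exists_pull_ne C p.rep p.rep_nonzero
  apply Set.Finite.subset (((C.pull a).roots.toFinset.image
    (fun t : ℂ => (t : OnePoint ℂ))) ∪ {OnePoint.infty}).finite_toSet
  intro τ hτ
  rw [Function.mem_support] at hτ
  rw [Finset.mem_coe, Finset.mem_union, Finset.mem_image, Finset.mem_singleton]
  cases τ with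
  | infty => exact Or.inr rfl
  | coe t =>
    left
    refine ⟨t, ?_, rfl⟩
    rw [Multiset.mem_toFinset, Polynomial.mem_roots ha0, ← Polynomial.dvd_iff_isRoot]
    have h1 : C.contact p t ∈ {m | ∀ a : Fin 3 → ℂ, ∑ i, a i * p.rep i = 0 →
        C.Vanishes a m (t : OnePoint ℂ)} := by
      apply Nat.sSup_mem
      · refine ⟨0, ?_⟩
        intro b _
        change (Polynomial.X - Polynomial.C t) ^ 0 ∣ C.pull b
        rw [pow_zero]
        exact one_dvd _
      · exact contact_bdd C p t
    have h2 : (Polynomial.X - Polynomial.C t) ^ (C.contact p t) ∣ C.pull a := h1 a ha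
    exact (dvd_pow_self _ hτ).trans h2

/-- a common divisor of the pull-backs of the linear forms vanishing at `p` gives contact -/
lemma le_contact (p : ℙ ℂ (Fin 3 → ℂ)) (g : ℂ[X])
    (hg : ∀ a : Fin 3 → ℂ, ∑ i, a i * p.rep i = 0 → g ∣ C.pull a) :
    g.natDegree ≤ ∑ᶠ τ : OnePoint ℂ, C.contact p τ := by
  classical
  have h1 : ∀ t : ℂ, g.rootMultiplicity t ≤ C.contact p t := by
    intro t
    apply le_csSup (contact_bdd C p t)
    intro a ha
    change (Polynomial.X - Polynomial.C t) ^ _ ∣ C.pull a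
    exact (Polynomial.pow_rootMultiplicity_dvd g t).trans (hg a ha)
  rw [finsum_eq_sum _ (contact_finite C p)]
  have h2 : g.natDegree = ∑ t ∈ g.roots.toFinset, g.rootMultiplicity t := by
    have h3 : g.natDegree = g.roots.card :=
      (splits_iff_card_roots.1 (IsAlgClosed.splits g)).symm
    rw [h3, ← Multiset.toFinset_sum_count_eq]
    exact Finset.sum_congr rfl fun t _ => by rw [count_roots]
  rw [h2]
  calc ∑ t ∈ g.roots.toFinset, g.rootMultiplicity t
      ≤ ∑ t ∈ g.roots.toFinset, C.contact p (t : OnePoint ℂ) :=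
        Finset.sum_le_sum fun t _ => h1 t
    _ = ∑ τ ∈ g.roots.toFinset.image (fun t : ℂ => (t : OnePoint ℂ)), C.contact p τ := by
        rw [Finset.sum_image (fun a _ b _ h => OnePoint.coe_injective h)]
    _ ≤ _ := by
        rw [← Finset.sum_filter_ne_zero]
        apply Finset.sum_le_sum_of_subset
        intro τ hτ
        rw [Finset.mem_filter] at hτ
        rw [Set.Finite.mem_toFinset]
        exact hτ.2

end Contact

section Main

/-- the Moebius transformation sending `α` to infinity -/
noncomputable def mob (α : ℂ) : OnePoint ℂ → ℂ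
  | none => 0
  | some x => (x - α)⁻¹

lemma mob_inj (α : ℂ) {x y : OnePoint ℂ} (hx : x ≠ (α : OnePoint ℂ)) (hy : y ≠ (α : OnePoint ℂ))
    (h : mob α x = mob α y) : x = y := by
  cases x with
  | infty =>
    cases y with
    | infty => rfl
    | coe y =>
      exfalso
      apply hy
      have h1 : (0 : ℂ) = (y - α)⁻¹ := h
      have h2 := inv_eq_zero.1 h1.symm
      rw [sub_eq_zero.1 h2]
  | coe x =>
    cases y with
    | infty =>
      exfalso
      apply hx
      have h1 : (x - α)⁻¹ = (0 : ℂ) := h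
      have h2 := inv_eq_zero.1 h1
      rw [sub_eq_zero.1 h2]
    | coe y =>
      have h1 : (x - α)⁻¹ = (y - α)⁻¹ := h
      have h2 := inv_injective h1
      have h3 : x = y := by linear_combination h2
      rw [h3]

lemma fib_dvd (A B : ℂ[X]) (α : ℂ) {x : OnePoint ℂ} (hx : x ≠ (α : OnePoint ℂ)) :
    H26E.fib A B x ∣ B - Polynomial.C (mob α x) * (A - Polynomial.C α * B) := by
  cases x with
  | infty =>
    have h1 : H26E.fib A B OnePoint.infty = B := rfl
    have h2 : mob α OnePoint.infty = 0 := rfl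
    rw [h1, h2, Polynomial.C_0, zero_mul, sub_zero]
  | coe x =>
    have h1 : H26E.fib A B (x : OnePoint ℂ) = A - Polynomial.C x * B := rfl
    have h2 : mob α (x : OnePoint ℂ) = (x - α)⁻¹ := rfl
    have h3 : x - α ≠ 0 := by
      intro h
      apply hx
      rw [sub_eq_zero.1 h]
    rw [h1, h2]
    refine ⟨- Polynomial.C (x - α)⁻¹, ?_⟩
    have h4 : (Polynomial.C (x - α)⁻¹ : ℂ[X]) * Polynomial.C (x - α) = 1 := by
      rw [← Polynomial.C_mul, inv_mul_cancel₀ h3, Polynomial.C_1]
    rw [Polynomial.C_sub] at h4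
    linear_combination (-B) * h4

/-- genericity conditions on the centre `(α, β)` for a curve -/
structure Good (A B G H : ℂ[X]) (α β : ℂ) : Prop where
  dα : (A - Polynomial.C α * B).natDegree = H26E.dg A B
  dβ : (G - Polynomial.C β * H).natDegree = H26E.dg G H
  nz : ∀ t, ¬ ((A - Polynomial.C α * B).eval t = 0 ∧ (G - Polynomial.C β * H).eval t = 0)

lemma vec0_ne : (![1, 0, 0] : Fin 3 → ℂ) ≠ 0 := by
  intro h
  have := congrFun h 0
  simp at this

lemma vec1_ne : (![0, 1, 0] : Fin 3 → ℂ) ≠ 0 := by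
  intro h
  have := congrFun h 1
  simp at this

lemma vec2_ne (x y : ℂ) : (![x, y, 1] : Fin 3 → ℂ) ≠ 0 := by
  intro h
  have := congrFun h 2
  simp at this

/-- the point `[1 : 0 : 0]` -/
noncomputable def P0 : ℙ ℂ (Fin 3 → ℂ) := Projectivization.mk ℂ ![1, 0, 0] vec0_ne

/-- the point `[0 : 1 : 0]` -/
noncomputable def P1 : ℙ ℂ (Fin 3 → ℂ) := Projectivization.mk ℂ ![0, 1, 0] vec1_ne

/-- the point `[x : y : 1]` -/
noncomputable def Pa (x y : ℂ) : ℙ ℂ (Fin 3 → ℂ) := Projectivization.mk ℂ ![x, y, 1] (vec2_ne x y)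

lemma perp_mk (v : Fin 3 → ℂ) (hv : v ≠ 0) (a : Fin 3 → ℂ)
    (h : ∑ i, a i * (Projectivization.mk ℂ v hv).rep i = 0) : ∑ i, a i * v i = 0 := by
  obtain ⟨c, hc⟩ := Projectivization.exists_smul_eq_mk_rep ℂ v hv
  rw [← hc] at h
  have h1 : ∑ i, a i * (c • v) i = (c : ℂ) * ∑ i, a i * v i := by
    rw [Finset.mul_sum]
    apply Finset.sum_congr rfl
    intro i _
    rw [Pi.smul_apply, Units.smul_def, smul_eq_mul]
    ring
  rw [h1] at h
  exact (mul_eq_zero.1 h).resolve_left c.ne_zero

lemma P0_ne_P1 : P0 ≠ P1 := by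
  intro h
  unfold P0 P1 at h
  rw [Projectivization.mk_eq_mk_iff'] at h
  obtain ⟨w, hw⟩ := h
  have := congrFun hw 0
  simp at this

lemma P0_ne_Pa (x y : ℂ) : P0 ≠ Pa x y := by
  intro h
  unfold P0 Pa at h
  rw [Projectivization.mk_eq_mk_iff'] at h
  obtain ⟨w, hw⟩ := h
  have h2 := congrFun hw 2
  have h0 := congrFun hw 0
  simp at h2
  rw [h2] at h0
  simp at h0

lemma P1_ne_Pa (x y : ℂ) : P1 ≠ Pa x y := by
  intro h
  unfold P1 Pa at h
  rw [Projectivization.mk_eq_mk_iff'] at h
  obtain ⟨w, hw⟩ := h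
  have h2 := congrFun hw 2
  have h0 := congrFun hw 1
  simp at h2
  rw [h2] at h0
  simp at h0

lemma Pa_inj {x y x' y' : ℂ} (h : Pa x y = Pa x' y') : x = x' ∧ y = y' := by
  unfold Pa at h
  rw [Projectivization.mk_eq_mk_iff'] at h
  obtain ⟨w, hw⟩ := h
  have h2 := congrFun hw 2
  have h0 := congrFun hw 0
  have h1 := congrFun hw 1
  simp at h2 h0 h1
  rw [h2] at h0 h1
  simp at h0 h1
  exact ⟨h0.symm, h1.symm⟩

/-- the plane curve attached to a curve in the product of two lines -/
lemma plane_curve {A B G H : ℂ[X]} (c1 : IsCoprime A B) (c2 : IsCoprime G H)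
    (d1 : 0 < H26E.dg A B) (hi : H26E.GenInj A B G H) {α β : ℂ} (hgood : Good A B G H α β) :
    ∃ C : RationalPlaneCurve, C.deg = H26E.dg A B + H26E.dg G H ∧
      C.φ = ![B * (G - Polynomial.C β * H), H * (A - Polynomial.C α * B),
        (A - Polynomial.C α * B) * (G - Polynomial.C β * H)] := by
  classical
  set b1 := A - Polynomial.C α * B with hb1
  set b2 := G - Polynomial.C β * H with hb2
  have hb1deg : b1.natDegree = H26E.dg A B := hgood.dα
  have hb2deg : b2.natDegree = H26E.dg G H := hgood.dβ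
  have hb1ne : b1 ≠ 0 := by
    rintro h
    rw [h, natDegree_zero] at hb1deg
    omega
  have e1 : IsCoprime B b1 := by
    rw [hb1, sub_eq_add_neg]
    have : A + -(Polynomial.C α * B) = A + B * (-Polynomial.C α) := by ring
    rw [this]
    exact (c1.symm.add_mul_left_right _)
  have e2 : IsCoprime H b2 := by
    rw [hb2, sub_eq_add_neg]
    have : G + -(Polynomial.C β * H) = G + H * (-Polynomial.C β) := by ring
    rw [this]
    exact (c2.symm.add_mul_left_right _)
  have hb2ne : b2 ≠ 0 := by
    rintro h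
    rw [h] at e2
    have h3 : IsUnit H := isCoprime_zero_right.1 e2
    have h4 : H26E.dg G H = 0 := by rw [← hb2deg, h, natDegree_zero]
    have h5 : H ≠ 0 := h3.ne_zero
    -- then `G = β H` and the map is constant in the second coordinate
    have hc : b1.natDegree ≤ 0 ∨ 0 < b1.natDegree := Nat.eq_zero_or_pos _ |>.imp (fun h => h.le) id
    rcases hc with hc | hc
    · omega
    · obtain ⟨t, ht⟩ : ∃ t, b1.eval t = 0 := by
        apply IsAlgClosed.exists_root
        intro hdeg
        rw [Polynomial.degree_eq_natDegree hb1ne] at hdeg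
        have : b1.natDegree = 0 := by exact_mod_cast hdeg
        omega
      exact hgood.nz t ⟨ht, by rw [← hb2, h, eval_zero]⟩
  have e3 : IsCoprime b1 b2 := by
    rw [Polynomial.isCoprime_iff_aeval_ne_zero_of_isAlgClosed (k := ℂ) (K := ℂ)]
    intro t
    by_contra hcon
    push Not at hcon
    simp only [Polynomial.coe_aeval_eq_eval] at hcon
    exact hgood.nz t hcon
  refine ⟨⟨![B * b2, H * b1, b1 * b2], H26E.dg A B + H26E.dg G H, ?_, ?_, ?_, ?_, ?_⟩, rfl, rfl⟩
  · rw [Ideal.eq_top_iff_one]
    have m0 : B * b2 ∈ Ideal.span (Set.range ![B * b2, H * b1, b1 * b2]) :=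
      Ideal.subset_span ⟨0, rfl⟩
    have m1 : H * b1 ∈ Ideal.span (Set.range ![B * b2, H * b1, b1 * b2]) :=
      Ideal.subset_span ⟨1, rfl⟩
    have m2 : b1 * b2 ∈ Ideal.span (Set.range ![B * b2, H * b1, b1 * b2]) :=
      Ideal.subset_span ⟨2, rfl⟩
    have n2 : b2 ∈ Ideal.span (Set.range ![B * b2, H * b1, b1 * b2]) := by
      obtain ⟨u, v, huv⟩ := e1
      have e : u * (B * b2) + v * (b1 * b2) = b2 := by linear_combination b2 * huv
      have h := Ideal.add_mem _ (Ideal.mul_mem_left _ u m0) (Ideal.mul_mem_left _ v m2)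
      rwa [e] at h
    have n1 : b1 ∈ Ideal.span (Set.range ![B * b2, H * b1, b1 * b2]) := by
      obtain ⟨u, v, huv⟩ := e2
      have e : u * (H * b1) + v * (b1 * b2) = b1 := by linear_combination b1 * huv
      have h := Ideal.add_mem _ (Ideal.mul_mem_left _ u m1) (Ideal.mul_mem_left _ v m2)
      rwa [e] at h
    obtain ⟨u, v, huv⟩ := e3
    rw [← huv]
    exact Ideal.add_mem _ (Ideal.mul_mem_left _ _ n1) (Ideal.mul_mem_left _ _ n2)
  · omega
  · intro i
    have k1 : B.natDegree ≤ H26E.dg A B := le_max_right _ _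
    have k2 : H.natDegree ≤ H26E.dg G H := le_max_right _ _
    fin_cases i
    · refine (natDegree_mul_le).trans ?_
      omega
    · refine (natDegree_mul_le).trans ?_
      omega
    · refine (natDegree_mul_le).trans ?_
      omega
  · refine ⟨2, ?_⟩
    change (b1 * b2).natDegree = _
    rw [natDegree_mul hb1ne hb2ne, hb1deg, hb2deg]
  · obtain ⟨T, hT⟩ := hi
    refine ⟨T ∪ b1.roots.toFinset ∪ b2.roots.toFinset, ?_⟩
    intro t ht t' ht' h
    rw [Finset.notMem_union, Finset.notMem_union] at ht ht'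
    have r1 : ∀ s, s ∉ b1.roots.toFinset → b1.eval s ≠ 0 := by
      intro s hs h0
      apply hs
      rw [Multiset.mem_toFinset, mem_roots hb1ne]
      exact h0
    have r2 : ∀ s, s ∉ b2.roots.toFinset → b2.eval s ≠ 0 := by
      intro s hs h0
      apply hs
      rw [Multiset.mem_toFinset, mem_roots hb2ne]
      exact h0
    have h02 := h 0 2
    have h12 := h 1 2
    simp only [Matrix.cons_val_zero, Matrix.cons_val_one, Matrix.cons_val, eval_mul] at h02 h12
    have x1 := r1 t ht.1.2
    have x2 := r2 t ht.2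
    have x1' := r1 t' ht'.1.2
    have x2' := r2 t' ht'.2
    apply hT t ht.1.1 t' ht'.1.1
    · have h3 : B.eval t * b1.eval t' = b1.eval t * B.eval t' := by
        have h4 : (B.eval t * b1.eval t' - b1.eval t * B.eval t') * (b2.eval t * b2.eval t') = 0 := by
          linear_combination h02
        have h5 := (mul_eq_zero.1 h4).resolve_right (mul_ne_zero x2 x2')
        linear_combination h5
      rw [hb1] at h3
      simp only [eval_sub, eval_mul, eval_C] at h3
      linear_combination -h3
    · have h3 : H.eval t * b2.eval t' = b2.eval t * H.eval t' := by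
        have h4 : (H.eval t * b2.eval t' - b2.eval t * H.eval t') * (b1.eval t * b1.eval t') = 0 := by
          linear_combination h12
        have h5 := (mul_eq_zero.1 h4).resolve_right (mul_ne_zero x1 x1')
        linear_combination h5
      rw [hb2] at h3
      simp only [eval_sub, eval_mul, eval_C] at h3
      linear_combination -h3

/-- the set of values of `α` with a degree drop is finite -/
lemma bad_deg (A B : ℂ[X]) :
    {α : ℂ | (A - Polynomial.C α * B).natDegree ≠ H26E.dg A B}.Finite ∨ H26E.dg A B = 0 := by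
  by_cases h0 : H26E.dg A B = 0
  · exact Or.inr h0
  left
  by_cases hB : B.coeff (H26E.dg A B) = 0
  · -- no bad value
    have hA : A.natDegree = H26E.dg A B := by
      unfold H26E.dg at hB h0 ⊢
      rcases le_total A.natDegree B.natDegree with h | h
      · rw [max_eq_right h] at hB h0 ⊢
        have : B = 0 := leadingCoeff_eq_zero.1 hB
        rw [this, natDegree_zero] at h0
        exact absurd rfl h0
      · rw [max_eq_left h]
    convert Set.finite_empty
    ext α
    rw [Set.mem_ofPred_eq, Set.mem_empty_iff_false, iff_false, not_not]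
    apply natDegree_eq_of_le_of_coeff_ne_zero
    · refine (natDegree_sub_le _ _).trans (max_le (le_max_left _ _) ?_)
      exact (natDegree_C_mul_le _ _).trans (le_max_right _ _)
    · rw [coeff_sub, coeff_C_mul, hB, mul_zero, sub_zero]
      intro h
      apply h0
      rw [← hA] at h
      have h1 : A = 0 := leadingCoeff_eq_zero.1 h
      rw [← hA, h1, natDegree_zero]
  · apply Set.Finite.subset (Set.finite_singleton (A.coeff (H26E.dg A B) / B.coeff (H26E.dg A B)))
    intro α hα
    rw [Set.mem_ofPred_eq] at hα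
    by_contra hne
    apply hα
    apply natDegree_eq_of_le_of_coeff_ne_zero
    · refine (natDegree_sub_le _ _).trans (max_le (le_max_left _ _) ?_)
      exact (natDegree_C_mul_le _ _).trans (le_max_right _ _)
    · rw [coeff_sub, coeff_C_mul]
      intro h
      apply hne
      rw [Set.mem_singleton_iff]
      field_simp
      linear_combination -h

lemma bad_pt {G H : ℂ[X]} (c : IsCoprime G H) (t : ℂ) :
    {β : ℂ | (G - Polynomial.C β * H).eval t = 0}.Finite := by
  by_cases hH : H.eval t = 0
  · convert Set.finite_empty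
    ext β
    rw [Set.mem_ofPred_eq, Set.mem_empty_iff_false, iff_false]
    intro h
    rw [eval_sub, eval_mul, eval_C, hH, mul_zero, sub_zero] at h
    obtain ⟨u, v, huv⟩ := c
    have := congrArg (eval t) huv
    rw [eval_add, eval_mul, eval_mul, h, hH, mul_zero, mul_zero, add_zero, eval_one] at this
    exact zero_ne_one this
  · apply Set.Finite.subset (Set.finite_singleton (G.eval t / H.eval t))
    intro β hβ
    rw [Set.mem_ofPred_eq, eval_sub, eval_mul, eval_C] at hβ
    rw [Set.mem_singleton_iff]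
    field_simp
    linear_combination -hβ

lemma exists_notMem_countable {s : Set ℂ} (hs : s.Countable) : ∃ x, x ∉ s := by
  by_contra h
  push Not at h
  apply not_countable_complex
  exact hs.mono (fun x _ => h x)

/-- a centre which is good for countably many curves and avoids a finite set -/
lemma exists_centre (S : Finset (OnePoint ℂ × OnePoint ℂ)) (A B G H : ℕ → ℂ[X])
    (c2 : ∀ n, IsCoprime (G n) (H n))
    (d1 : ∀ n, 0 < H26E.dg (A n) (B n)) (d2 : ∀ n, 0 < H26E.dg (G n) (H n)) :
    ∃ α β : ℂ, (∀ p ∈ S, p.1 ≠ (α : OnePoint ℂ) ∧ p.2 ≠ (β : OnePoint ℂ)) ∧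
      ∀ n, Good (A n) (B n) (G n) (H n) α β := by
  classical
  have hS1 : {α : ℂ | ∃ p ∈ S, p.1 = (α : OnePoint ℂ)}.Finite := by
    apply Set.Finite.of_finite_image (f := fun α : ℂ => (α : OnePoint ℂ))
    · apply Set.Finite.subset (S.image Prod.fst).finite_toSet
      rintro _ ⟨α, ⟨p, hp, h⟩, rfl⟩
      rw [Finset.mem_coe, Finset.mem_image]
      exact ⟨p, hp, h⟩
    · exact fun a _ b _ h => OnePoint.coe_injective h
  have hS2 : {β : ℂ | ∃ p ∈ S, p.2 = (β : OnePoint ℂ)}.Finite := by
    apply Set.Finite.of_finite_image (f := fun α : ℂ => (α : OnePoint ℂ))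
    · apply Set.Finite.subset (S.image Prod.snd).finite_toSet
      rintro _ ⟨α, ⟨p, hp, h⟩, rfl⟩
      rw [Finset.mem_coe, Finset.mem_image]
      exact ⟨p, hp, h⟩
    · exact fun a _ b _ h => OnePoint.coe_injective h
  obtain ⟨α, hα⟩ := exists_notMem_countable (s := {α : ℂ | ∃ p ∈ S, p.1 = (α : OnePoint ℂ)} ∪
    ⋃ n, {α : ℂ | (A n - Polynomial.C α * B n).natDegree ≠ H26E.dg (A n) (B n)}) (by
      apply hS1.countable.union
      apply Set.countable_iUnion
      intro n
      rcases bad_deg (A n) (B n) with h | h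
      · exact h.countable
      · exact absurd h (d1 n).ne')
  rw [Set.mem_union, not_or] at hα
  obtain ⟨hα1, hα2⟩ := hα
  have hα3 : ∀ n, (A n - Polynomial.C α * B n).natDegree = H26E.dg (A n) (B n) := by
    intro n
    by_contra h
    exact hα2 (Set.mem_iUnion.2 ⟨n, h⟩)
  obtain ⟨β, hβ⟩ := exists_notMem_countable (s := {β : ℂ | ∃ p ∈ S, p.2 = (β : OnePoint ℂ)} ∪
    ((⋃ n, {β : ℂ | (G n - Polynomial.C β * H n).natDegree ≠ H26E.dg (G n) (H n)}) ∪
    ⋃ n, ⋃ t ∈ (A n - Polynomial.C α * B n).roots.toFinset,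
      {β : ℂ | (G n - Polynomial.C β * H n).eval t = 0})) (by
      apply hS2.countable.union
      apply Set.Countable.union
      · apply Set.countable_iUnion
        intro n
        rcases bad_deg (G n) (H n) with h | h
        · exact h.countable
        · exact absurd h (d2 n).ne'
      · apply Set.countable_iUnion
        intro n
        apply Set.Countable.biUnion
        · exact (Finset.countable_toSet _)
        · intro t _
          exact (bad_pt (c2 n) t).countable)
  rw [Set.mem_union, not_or, Set.mem_union, not_or] at hβ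
  obtain ⟨hβ1, hβ2, hβ3⟩ := hβ
  refine ⟨α, β, ?_, ?_⟩
  · intro p hp
    exact ⟨fun h => hα1 ⟨p, hp, h⟩, fun h => hβ1 ⟨p, hp, h⟩⟩
  · intro n
    refine ⟨hα3 n, ?_, ?_⟩
    · by_contra h
      exact hβ2 (Set.mem_iUnion.2 ⟨n, h⟩)
    · rintro t ⟨ht1, ht2⟩
      apply hβ3
      rw [Set.mem_iUnion]
      refine ⟨n, ?_⟩
      rw [Set.mem_iUnion₂]
      refine ⟨t, ?_, ht2⟩
      rw [Multiset.mem_toFinset, mem_roots]
      · exact ht1
      · intro h0
        have := hα3 n
        rw [h0, natDegree_zero] at this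
        have := d1 n
        omega

end Main

theorem result (S₀ : Finset (ℙ ℂ (Fin 3 → ℂ))) :
    ∃ S : Finset (ℙ ℂ (Fin 3 → ℂ)), S₀ ⊆ S ∧
      ∀ B : ℝ, ∃ C : RationalPlaneCurve, B < C.canonicalDegree S := by
  classical
  obtain ⟨S1, -, h1⟩ := H26E.main ∅
  choose A B G H c1 c2 d1 d2 hi hsum using h1
  obtain ⟨α, β, hS, hgood⟩ := exists_centre S1 A B G H c2 d1 d2
  set ι : OnePoint ℂ × OnePoint ℂ → ℙ ℂ (Fin 3 → ℂ) := fun p => Pa (mob α p.1) (mob β p.2) with hι
  have hιinj : ∀ p ∈ S1, ∀ q ∈ S1, ι p = ι q → p = q := by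
    intro p hp q hq h
    obtain ⟨h1, h2⟩ := Pa_inj h
    exact Prod.ext (mob_inj α (hS p hp).1 (hS q hq).1 h1) (mob_inj β (hS p hp).2 (hS q hq).2 h2)
  refine ⟨S₀ ∪ (insert P0 (insert P1 (S1.image ι))), Finset.subset_union_left, fun r => ?_⟩
  obtain ⟨n, hn⟩ := exists_nat_gt r
  obtain ⟨C, hCdeg, hCφ⟩ := plane_curve (c1 n) (c2 n) (d1 n) (hi n) (hgood n)
  refine ⟨C, lt_of_lt_of_le hn ?_⟩
  have hpull : ∀ a : Fin 3 → ℂ, C.pull a = Polynomial.C (a 0) * (B n * (G n - Polynomial.C β * H n))
      + Polynomial.C (a 1) * (H n * (A n - Polynomial.C α * B n))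
      + Polynomial.C (a 2) * ((A n - Polynomial.C α * B n) * (G n - Polynomial.C β * H n)) := by
    intro a
    unfold RationalPlaneCurve.pull
    rw [Fin.sum_univ_three, hCφ]
    rfl
  have k0 : H26E.dg (A n) (B n) ≤ ∑ᶠ τ : OnePoint ℂ, C.contact P0 τ := by
    rw [← (hgood n).dα]
    apply le_contact
    intro a ha
    have h0 := perp_mk _ _ a ha
    simp [Fin.sum_univ_three] at h0
    rw [hpull, h0, Polynomial.C_0, zero_mul, zero_add]
    refine dvd_add ?_ ?_
    · exact Dvd.intro_left (Polynomial.C (a 1) * H n) (by ring)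
    · exact Dvd.intro_left (Polynomial.C (a 2) * (G n - Polynomial.C β * H n)) (by ring)
  have k1 : H26E.dg (G n) (H n) ≤ ∑ᶠ τ : OnePoint ℂ, C.contact P1 τ := by
    rw [← (hgood n).dβ]
    apply le_contact
    intro a ha
    have h0 := perp_mk _ _ a ha
    simp [Fin.sum_univ_three] at h0
    rw [hpull, h0, Polynomial.C_0, zero_mul, add_zero]
    refine dvd_add ?_ ?_
    · exact Dvd.intro_left (Polynomial.C (a 0) * B n) (by ring)
    · exact Dvd.intro_left (Polynomial.C (a 2) * (A n - Polynomial.C α * B n)) (by ring)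
  have k2 : ∀ p ∈ S1, H26E.mlt (A n) (B n) (G n) (H n) p ≤ ∑ᶠ τ : OnePoint ℂ, C.contact (ι p) τ := by
    intro p hp
    unfold H26E.mlt
    apply le_contact
    intro a ha
    have h0 := perp_mk _ _ a ha
    simp [Fin.sum_univ_three] at h0
    have f1 := fib_dvd (A n) (B n) α (hS p hp).1
    have f2 := fib_dvd (G n) (H n) β (hS p hp).2
    have g1 := EuclideanDomain.gcd_dvd_left (H26E.fib (A n) (B n) p.1) (H26E.fib (G n) (H n) p.2)
    have g2 := EuclideanDomain.gcd_dvd_right (H26E.fib (A n) (B n) p.1) (H26E.fib (G n) (H n) p.2)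
    have e : C.pull a = Polynomial.C (a 0) * (G n - Polynomial.C β * H n) *
          (B n - Polynomial.C (mob α p.1) * (A n - Polynomial.C α * B n))
        + Polynomial.C (a 1) * (A n - Polynomial.C α * B n) *
          (H n - Polynomial.C (mob β p.2) * (G n - Polynomial.C β * H n)) := by
      rw [hpull]
      have h2 : a 2 = -(a 0 * mob α p.1) - a 1 * mob β p.2 := by linear_combination h0
      rw [h2]
      simp only [Polynomial.C_sub, Polynomial.C_neg, Polynomial.C_mul]
      ring
    rw [e]
    exact dvd_add ((g1.trans f1).mul_left _) ((g2.trans f2).mul_left _)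
  have k3 : H26E.dg (A n) (B n) + H26E.dg (G n) (H n) + ∑ p ∈ S1, H26E.mlt (A n) (B n) (G n) (H n) p ≤
      ∑ p ∈ S₀ ∪ (insert P0 (insert P1 (S1.image ι))), ∑ᶠ τ : OnePoint ℂ, C.contact p τ := by
    refine le_trans ?_ (Finset.sum_le_sum_of_subset Finset.subset_union_right)
    rw [Finset.sum_insert, Finset.sum_insert, Finset.sum_image hιinj]
    · have := Finset.sum_le_sum k2
      omega
    · intro h
      obtain ⟨p, _, hp⟩ := Finset.mem_image.1 h
      exact P1_ne_Pa _ _ hp.symm
    · intro h
      rcases Finset.mem_insert.1 h with h | h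
      · exact P0_ne_P1 h
      · obtain ⟨p, _, hp⟩ := Finset.mem_image.1 h
        exact P0_ne_Pa _ _ hp.symm
  have k4 := hsum n
  unfold RationalPlaneCurve.canonicalDegree
  rw [hCdeg]
  have k5 : ((H26E.dg (A n) (B n) + H26E.dg (G n) (H n) +
      ∑ p ∈ S1, H26E.mlt (A n) (B n) (G n) (H n) p : ℕ) : ℤ) ≤
      ((∑ p ∈ S₀ ∪ (insert P0 (insert P1 (S1.image ι))), ∑ᶠ τ : OnePoint ℂ, C.contact p τ : ℕ) : ℤ) := by
    exact_mod_cast k3
  have k6 : ((2 * H26E.dg (A n) (B n) + 2 * H26E.dg (G n) (H n) + n : ℕ) : ℤ) ≤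
      ((∑ p ∈ S1, H26E.mlt (A n) (B n) (G n) (H n) p : ℕ) : ℤ) := by exact_mod_cast k4
  have k7 : ((n : ℤ)) ≤ ∑ p ∈ S₀ ∪ (insert P0 (insert P1 (S1.image ι))),
      ((∑ᶠ τ : OnePoint ℂ, C.contact p τ : ℕ) : ℤ)
      - 3 * ((H26E.dg (A n) (B n) + H26E.dg (G n) (H n) : ℕ) : ℤ) := by
    push_cast at k5 k6 ⊢
    linarith
  exact_mod_cast k7

end Pool.Agent.Results.MP_79ab39_ag.PlaneBlowup
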